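import Pool.Agent.T9h84.CP.Weight
import Pool.Agent.T9h84.CP.Closed

/-!
# A natural 6-form with conformally invariant integral which is not `c Q + L + G`

The natural 6-form `S = Δ |Ric|² dv` is a divergence, so that its integral over closed manifolds
vanishes. If `S - c Q - L` had a local conformal primitive `F`, the first derivatives of
`(r, s, t) ↦ ∫ F` along the metrics `e^{2 (r u + s v + t w)} δ` would be given by the values of
`S - c Q - L`, and its third derivatives would be symmetric; `c Q` and `L` do not contribute to
them. For suitable trigonometric polynomials on the torus they are not symmetric for `S`.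
-/

set_option autoImplicit false

open scoped BigOperators ContDiff Topology
open Pool.Agent.T9h84.CP

namespace Pool.Agent.Results.MP_18eb12_gt.LapRicSq

/-- **Negative answer in dimension 6.** The natural 6-form `S = Δ |Ric|² dv`

* is invariant under constant scaling of the metric,
* has conformally invariant integral over all closed Riemannian 6-manifolds,

but for all natural forms `Q` with the transformation law of the critical `Q`-curvature, all
constants `c` and all local conformal invariants `L`, the form `S - c Q - L` has no conformal
primitive, not even on the torus `ℝ^6 / ℤ^6`. -/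
theorem result :
    (∀ g : Met 6, IsMetric g → ∀ r : ℝ, 0 < r → ∀ x,
      form lapRicSq (fun y => r • g y) x = form lapRicSq g x) ∧
    ConfInvClosed 6 lapRicSq ∧
    ∀ Q : NatTen 0, HasQLaw 6 Q → ∀ (c : ℝ) (L : NatTen 0), IsLocalInvariant 6 L →
      ¬ ∃ F : NatTen 0, IsPrimitiveTorus 6 F
        fun g x => form lapRicSq g x - c * form Q g x - form L g x :=
  ⟨form_scl, confInvClosed_lapRicSq 6, fun _ hQ c _ hL ⟨F, hF⟩ => no_primitive hQ hL c F hF⟩

end Pool.Agent.Results.MP_18eb12_gt.LapRicSq
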